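import Pool.Agent.Z15.W.All
import Pool.Agent.Z15.S.FinalS

/-!
# Cycles of all dimensions on complete intersections with few mixed monomials

Let `k` be an algebraically closed field of characteristic `0`, for example `ℂ`. Let `V` be the
projective variety `F a = 0` (`a ∈ α`), where `F a` are forms of degrees `d a ≥ 2`, for example a smooth
complete intersection in `ℙ^N`. Put `D = ∑ d a`. Assume that there are disjoint sets `0, …, s` of variables
(blocks), and perhaps further variables, such that each monomial of `F a` which is divisible by a
variable of the block `i` has degree at most `m` in the variables of the blocks `i + 1, …, s`. If each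
block has more than `(m + 1) ^ s D` variables then the Chow groups `CH_l(V) ⊗ ℚ` are generated by a linear
subspace of dimension `l`, for all `l ≤ s`, also over all extensions of the field `k`. In particular, if
`V` is smooth then `A_l^hom(V) = 0` for all `l < c`, where `c = s + 1`: the generalized Bloch conjecture
for such `V` of Hodge coniveau `≥ c`. The number of variables which is needed is, for fixed `m` and `c`, a
linear function of the degrees.

In the case `m = 0` there are no mixed monomials, `F a = ∑ j, f_{a, j}(x_j, t)`, where the variables `t`
belong to no block, and it suffices to have `D + 1` variables `x_j` for each `j ≥ 1`, `D` variables `x_0` and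
`D + 1` variables in all.

Cycles and rational equivalence are described in terms of function fields (`Pool.Agent.Z15.H.cyc` and
the definitions of the files `Pool/Agent/Z15/J/Chow.lean` and `Pool/Agent/Z15/S/ChowS.lean`).

The proof: let `p` be a point of `V` in the block `0`. Through the generic point of a subvariety of `V`
there is (over a finite extension of its function field) a line in `V` which meets the linear
subspace of the block `s` in a point `z`, such that `V` contains the line through `z` and `p`. So each cycle is
equivalent, up to torsion, to a sum of families of lines through such points `z`. The lines through `z`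
whose direction is in the space spanned by a given direction and the blocks `0, …, s - 1` are
parametrized by a variety of the same kind, with `s - 1` in place of `s`, over the field of definition of `z`.
By induction its cycles are sums of cones with the vertex `p`; rational equivalence on the generic fibre
gives rational equivalence up to vertical terms, with a smaller field of definition. So all cycles of
positive dimension on `V` are sums of cones with the vertex `p`. The cones are parametrized by the cycles on
the variety of all points `w` in the blocks `1, …, s` such that `V` contains the line through `p` and `w`,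
which is of the same kind too.
-/

set_option autoImplicit false

namespace Pool.Agent.Results.MP_13bc1c_ag.AllDimensionsFewMixedMonomials

open MvPolynomial Pool.Agent.Z15.Chow Pool.Agent.Z15.ChowS

/-- `F a` are forms of degrees `d a ≥ 2`. The variable `i` belongs to the block `b i` if `b i ≤ s`, and to no
block if `b i > s`. Each monomial of `F a` which is divisible by a variable of the block `b i` has degree
at most `m` in the variables of the blocks `b i + 1, …, s`. The block `0` has at least `(m + 1) ^ s ∑ d a`
variables, the blocks `1, …, s` have more, and there are more than `∑ d a` variables in all. -/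
structure Blocks {k : Type} [Field k] {ι α : Type} [Fintype ι] [Fintype α]
    (F : α → MvPolynomial ι k) (d : α → ℕ) (b : ι → ℕ) (s m : ℕ) : Prop where
  hom : ∀ a, (F a).IsHomogeneous (d a)
  two_le : ∀ a, 2 ≤ d a
  mixed : ∀ a, ∀ μ ∈ (F a).support, ∀ i, μ i ≠ 0 → ∑ i' with b i < b i' ∧ b i' ≤ s, μ i' ≤ m
  first : (m + 1) ^ s * ∑ a, d a ≤ Nat.card {i // b i = 0}
  others : ∀ j, 1 ≤ j → j ≤ s → (m + 1) ^ s * ∑ a, d a < Nat.card {i // b i = j}
  total : ∑ a, d a < Nat.card ι

/-- `Λ 0, …, Λ s` is a basis of a linear subspace which is contained in the variety `F a = 0`. -/
def SpanIn {k : Type} [Field k] {ι α : Type} (s : ℕ) (Λ : ℕ → ι → k)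
    (F : α → MvPolynomial ι k) : Prop :=
  (LinearIndependent k fun j : Fin (s + 1) => Λ j) ∧
    ∀ (a : α) (c : Fin (s + 1) → k), eval (fun i => ∑ j, c j * Λ j i) (F a) = 0

/-- Let `F a` (`a ∈ α`) be forms of degrees `d a ≥ 2` over an algebraically closed field `k` of
characteristic `0`, with `D = ∑ d a`. Assume that each monomial of `F a` which is divisible by a variable of
the block `i` has degree at most `m` in the variables of the blocks `i + 1, …, s`, that the block `0` has at
least `(m + 1) ^ s D` variables, the blocks `1, …, s` have more than `(m + 1) ^ s D` variables, and that there
are more than `D` variables in all. Then there are linearly independent vectors `Λ 0, …, Λ s` which span a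
linear subspace of the variety `F a = 0`, such that for every field `K ⊇ k` and all `l ≤ s`, every cycle of
dimension `l` on the variety over `K` is, in the Chow group with rational coefficients, a multiple of the
linear subspace spanned by `Λ 0, …, Λ l`. -/
theorem result (k : Type) [Field k] [IsAlgClosed k] [CharZero k] {ι α : Type} [Fintype ι] [Fintype α]
    [Nonempty α] (F : α → MvPolynomial ι k) (d : α → ℕ) (b : ι → ℕ) (s m : ℕ)
    (h : Blocks F d b s m) :
    ∃ Λ : ℕ → ι → k, SpanIn s Λ F ∧ ∀ (K : Type) [Field K] [Algebra k K] (l : ℕ), l ≤ s →
      GeneratedBy K l (fun a => map (algebraMap k K) (F a))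
        (linear K (fun i j => algebraMap k K (Λ i j)) l) := by
  classical
  have hc : ∀ j, Nat.card {i // b i = j} = (Finset.univ.filter fun i => b i = j).card := fun j => by
    rw [Nat.card_eq_fintype_card, Fintype.card_subtype]
  have hs : Pool.Agent.Z15.W.Sizes b s m (∑ a, d a) := by
    refine ⟨?_, ?_, fun j h1 h2 => ?_⟩
    · have h3 := h.total
      rw [Nat.card_eq_fintype_card] at h3
      exact h3
    · rw [← hc]
      exact h.first
    · rw [← hc]
      exact h.others j h1 h2
  obtain ⟨Λ, h1, h2, h3⟩ := Pool.Agent.Z15.W.w_U k ι α F d b s m
    ⟨h.hom, fun a => lt_of_lt_of_le Nat.zero_lt_two (h.two_le a), h.mixed, hs⟩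
    ⟨Classical.arbitrary α, h.two_le _⟩
  exact ⟨Λ, ⟨h1, h2⟩, fun K _ _ l hl => of_mult (h3 K l hl)⟩

end Pool.Agent.Results.MP_13bc1c_ag.AllDimensionsFewMixedMonomials
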