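import Pool.Agent.Z15.G3

/-!
# Bloch's conjecture for surfaces with a pencil of curves with completely decomposable Jacobians

Let `X` be a smooth projective complex surface with `p_g(X) = 0`, and let `t` be a nonconstant
rational function on `X` such that the field `ℂ(t)` is algebraically closed in the function field
`K = ℂ(X)`: the fibres of `t : X ⇢ ℙ¹` are irreducible in general. Let `C` be the generic fibre, a
curve over `ℂ(t)`. Assume that the Jacobian variety of `C` is isogenous, over `ℂ(t)`, to a product
of elliptic curves. The genus of `C` is arbitrary, and the elliptic curves are arbitrary elliptic
curves over `ℂ(t)`. Then Bloch's conjecture is true for `X`. (No assumption is made on the Kodaira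
dimension of `X`, and no group acts on `X`.)

The assumption on the Jacobian variety is formulated as follows: there are nonconstant maps
`π i : C → E i` to elliptic curves `y ^ 2 = x ^ 3 + a x + b` over `ℂ(t)`, and the identity on the
space of regular differentials of `C` is a linear combination of the `π i ^* π i _*`, with
rational coefficients. If the Jacobian variety is isogenous to a product of elliptic curves then there
are such maps (for each elliptic curve take an orthogonal basis of the maps from the Jacobian variety
to it), and the converse is clear.

The conclusion is stated for the generic point, in terms of the function field (`Rat`, from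
`Pool.Agent.N162.BC.Defs`): if `Ω` is an algebraically closed field of transcendence degree two over
`ℂ`, and `σ : K → Ω` is any embedding (for instance, `Ω` can be an algebraic closure of `K`), then a
positive multiple of the point `σ` of `X × Spec Ω` is rationally equivalent to a cycle which is
supported on `D × Spec Ω`, for a curve `D` on `X`. By the theorem of Bloch and Srinivas, this means
that a positive multiple of the diagonal of `X × X` is rationally equivalent to the sum of cycles
supported on `D × X` and on `X × D'`, and that the kernel of the Albanese map of `X` is zero; if
`q(X) = 0` then `A_0^{hom}(X) = 0`. (These standard consequences are not formalised here.)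

Proof. The form `dt ∧ dx / y`, for a minimal Weierstrass equation of `E i`, is regular on all models of
`X` if the elliptic surface with the generic fibre `E i` has geometric genus at least one (this is
proved with an inequality for the orders of the forms `dt ∧ dg` at divisorial valuations). Since
`p_g(X) = 0`, the polynomials `a` and `b` in `t` have degrees at most four and six. By a count of
parameters (weighted homogeneous equations have common zeros) there is a rational curve through the
generic point of `E i`, which is not contained in a fibre, and `π i ^*` of this point is
torsion modulo cycles supported on curves. Finally a multiple of the generic point of `C` and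
a linear combination of the cycles `π i ^* π i _*` of this point have the same traces, and thus they
are rationally equivalent on `C` modulo cycles with coordinates algebraic over `ℂ(t)`
(`Pool.Agent.N162.BC.fibre`).
-/

set_option autoImplicit false

open FF Pool.Agent.Z15
open Pool.Agent.N162.BC (Rat GlobalForm)

namespace Pool.Agent.Results.MP_13bc1c_ag.DecomposablePencils

/-- **Bloch's conjecture for surfaces with a pencil of curves whose Jacobian varieties are isogenous
to products of elliptic curves.** `K` is the function field of the surface `X`. The derivation
`D ≠ 0` with `D t = 0` is a vertical vector field on the generic fibre `C` of `t`, and a differential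
`ω` on `C` is given by the function `T = ω(D)`, see `RegForm` and `transfer`. -/
theorem result {K : Type} [Field K] [Algebra ℂ K] [Algebra.EssFiniteType ℂ K]
    (hK : Algebra.trdeg ℂ K = 2)
    -- the geometric genus of the surface is zero
    (hpg : ∀ ω : (Fin 2 → Derivation ℂ K K) → K, GlobalForm 2 ω → ω = 0)
    -- the pencil
    {t : K} (ht : Transcendental ℂ t)
    (hirr : ∀ a : K, IsAlgebraic (IntermediateField.adjoin ℂ {t}) a →
      a ∈ IntermediateField.adjoin ℂ {t})
    (D : Derivation ℂ K K) (hD : D ≠ 0) (hDt : D t = 0)
    -- the maps from the generic fibre to the elliptic curves
    {ι : Type} [Fintype ι] (x y a b : ι → K)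
    (ha : ∀ i, a i ∈ IntermediateField.adjoin ℂ {t})
    (hb : ∀ i, b i ∈ IntermediateField.adjoin ℂ {t})
    (hd : ∀ i, 4 * a i ^ 3 + 27 * b i ^ 2 ≠ 0)
    (hx : ∀ i, x i ∉ IntermediateField.adjoin ℂ {t})
    (hy : ∀ i, y i ^ 2 = x i ^ 3 + a i * x i + b i)
    -- the identity on the regular differentials of the generic fibre
    (c : ι → ℚ) (hid : ∀ T, RegForm (IntermediateField.adjoin ℂ {t}) D T →
      T = ∑ i, (c i : K) * transfer (IntermediateField.adjoin ℂ {t, x i, y i}) D (x i) T)
    -- the generic points
    {Ω : Type} [Field Ω] [Algebra ℂ Ω] [IsAlgClosed Ω] (hΩ : Algebra.trdeg ℂ Ω = 2)
    (σ : K →ₐ[ℂ] Ω) :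
    ∃ N : ℕ, 0 < N ∧ Finsupp.single σ (N : ℤ) ∈ Rat K Ω :=
  main2 hK hΩ hpg ht hirr D hD hDt x y a b ha hb hd hx hy c hid σ

end Pool.Agent.Results.MP_13bc1c_ag.DecomposablePencils
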