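import Mathlib
import Pool.Agent.Z15.V.Main

/-!
# The generalized Bloch conjecture for quotients of abelian varieties

Let `X` be a complex abelian variety with a polarization, and let `R ⊆ End(X) ⊗ ℚ` be a subalgebra which
is stable under the Rosati involution and of real type: `R ⊗ ℝ` is a product of algebras of real
matrices. Examples:

* `X = ∏ A_j ^ n_j` and `R = ∏ M_{n_j}(ℚ)`, where the `A_j` are arbitrary abelian varieties;
* `R = End(X) ⊗ ℚ`, if `X` has no simple factor whose endomorphism algebra is of Albert type III or IV.

Let `M = (X, p)` be a direct summand of the Chow motive of `X` such that the projector `p` acts on the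
cohomology of `X` through `R`: in each degree the action is a linear combination of pull-backs by
elements of `R`. We prove the generalized Bloch conjecture for `M`: if `h^(s, t)(M) = 0` for all `s ≠ t`
with `s < c` or `t < c` then all homologically trivial cycles of dimension less than `c` on `M` are
rationally equivalent to zero, with rational coefficients; more precisely `p` is a sum of
compositions `X → Y → X` of correspondences of degrees `-c` and `c`, where `Y` is an abelian variety, or
`-r` and `r`, where `Y` is a point and `r < c`.

There is no condition on the Hodge group of `X`. The generalized Bloch conjecture follows for the smooth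
projective varieties whose motive is a sum of such `M` and of motives for which it is known, in
particular (these consequences are not formalised; `c = 1` is Bloch's conjecture in all dimensions)

* if `W` is a resolution of the singularities of `X / G`, where `G` is a finite group of automorphisms of
  the variety `X` whose linear parts belong to `R`, for example any finite group of automorphisms if `X` has
  no simple factor of type III or IV, or a group of automorphisms of `∏ A_j ^ n_j` whose linear parts are
  in `∏ GL_{n_j}(ℤ)`: if `H^0(W, Ω^m) = 0` for all `m > 0` then `CH_0(W) = ℤ`. Here `CH_0(W)_ℚ = CH_0(X)_ℚ^G`
  and `p` is the average of the graphs of the elements of `G`;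
* for the motives `S_λ h^1(A)`, for all abelian varieties `A` and all partitions `λ`, and for tensor
  products of such motives; they are direct summands of the motives of the powers of `A`;
* for the resolutions of `(C_1 ^ n_1 × ... × C_k ^ n_k) / G`, where the `C_j` are any curves and the group
  `G` permutes the factors.

The results on this page so far on abelian varieties are for abelian varieties for which the
generalized Hodge conjecture is known (`AbelianMotives`, `SmallPeriodFields`).

The proof. The image of `p` in the cohomology of degree `m` is contained in the span of the products
of `c` classes of divisors and a class of degree `m - 2c`, if `2 c ≤ m`, by the theorem of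
`Pool.Agent.Results.MP_1c689d_ag.RealTypeQuotients` (`Pool.Agent.Z15.Q.q_MAIN`); if `m = 2 j < 2 c` it is
contained in the span of the products of `j` classes of divisors, and it is zero if `m < 2 c` is odd.
Products of classes of divisors are given by algebraic correspondences with abelian varieties. Kimura's
theorem (homologically trivial endomorphisms of the motive of an abelian variety are nilpotent) and the
semisimplicity of the category of motives of abelian varieties modulo homological equivalence give the
result on the Chow groups, as in `Pool.Agent.N178.BL.Main`.

The structure `ChowTheory` (`Pool.Agent.N178.BL.Defs`) collects the known properties of the Chow groups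
of abelian varieties which are used.
-/

set_option autoImplicit false

namespace Pool.Agent.Results.MP_13bc1c_ag.RealTypeMotives

open Module Pool.Agent.Y90 Pool.Agent.R915
open Pool.Agent.N178.BL (ChowTheory HT)
open Pool.Agent.Z15.Q (RealType)
open Pool.Agent.Z15.V (ActsThrough)

/-- The sums of compositions `κ ∘ Γ`, where `Γ` is a correspondence of degree `-c` from `X` to an
abelian variety `Y` and `κ` a correspondence of degree `c` from `Y` to `X`; or `Y` is a point and the
degrees are `-r` and `r`, where `r < c`. -/
def throughTwists (C : ChowTheory) (X : AV) (c : ℕ) : AddSubgroup (C.Co X X) :=
  AddSubgroup.closure {q | ∃ (Y : AV) (r : ℤ) (Γ : C.Co X Y) (κ : C.Co Y X),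
    (r = c ∨ (r < c ∧ finrank ℚ Y.H = 0)) ∧ C.IsDeg (-r) Γ ∧ C.IsDeg r κ ∧ q = C.o κ Γ}

/-- **The generalized Bloch conjecture for the direct summands `(X, p)` of the Chow motives of complex
abelian varieties `X` such that `p` acts on the cohomology through an algebra `R` of endomorphisms of
real type**: if the Hodge coniveau is at least `c`, then each homologically trivial cycle `z` of
dimension `i < c` on the motive is rationally equivalent to zero (the cycles on `X` are the
correspondences from a point `O` to `X`); more precisely `p` is a sum of compositions as in
`throughTwists`. -/
theorem result (C : ChowTheory) (X : AV) (E : X.H → X.H → ℚ)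
    (R : Subalgebra ℚ (Module.End ℚ X.H)) (hR : RealType X E R) (p : C.Co X X)
    (hp : C.IsMotive p) (hA : ActsThrough R p) (c : ℕ) (hc : C.HasConiveau p c) :
    p ∈ throughTwists C X c ∧ ∀ (O : AV) (i : ℤ) (z : C.Co O X), finrank ℚ O.H = 0 → i < c →
      C.IsDeg i z → C.o p z = z → (∀ ω, C.pb z ω = 0) → z = 0 := by
  have h := Pool.Agent.Z15.V.v_IMG C X E R hR p hp hA c hc
  exact ⟨h, fun O i z hO hi hz hpz h0 => Pool.Agent.N178.BL.cycle_zero h hO hi hz hpz h0⟩

end Pool.Agent.Results.MP_13bc1c_ag.RealTypeMotives
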