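import Pool.Agent.Z15.J.Final2

/-!
# The generalized Bloch conjecture for hypersurfaces `f_0(x_0) + … + f_s(x_s) = 0`

Let `k` be an algebraically closed field of characteristic `0`, for example `ℂ`. Let `F` be a form of
degree `d ≥ 2` which is a sum `F = f_0 + … + f_s` of forms in disjoint sets of variables, each of which
has at least `d` elements, and let `X` be the hypersurface `F = 0` in `ℙ^N`, where `N ≥ (s + 1) d`. We
prove that the Chow groups `CH_l(X) ⊗ ℚ` are generated by a linear subspace of dimension `l`, for all
`l ≤ s`, also over all extensions of the field `k`. In particular, if `X` is smooth then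
`A_l^hom(X) = 0` for all `l < c`, where `c = s + 1`.

A smooth hypersurface of degree `d` in `ℙ^N` whose cohomology is not algebraic has Hodge coniveau `≥ c`
if and only if `N ≥ c d`. So the theorem proves the generalized Bloch conjecture, for all `i < c` and
for all `c`, for the hypersurfaces as above with `(s + 1) d ≤ N < (s + 2) d`, for example for all smooth
hypersurfaces `a_0 x_0 ^ d + … + a_N x_N ^ d = 0`, and the number of variables is the smallest possible.

Cycles and rational equivalence are described in terms of function fields (`Pool.Agent.Z15.H.cyc` and
the definitions of the file `Pool/Agent/Z15/J/Chow.lean`).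

The proof is by induction on `s`. Write `F = f(x) + G(y)`, where `f` has more than `d` variables. Through
the generic point of a variety in `X` there is (over a finite extension of its function field) a line
in `X` which passes through a point `(z, 0)` with `f(z) = 0`, a line of maximal contact with `f = 0`. So
each cycle is equivalent, up to torsion, to a sum of cycles which are swept out by families of such
lines. The families of lines of maximal contact with given `z` and given direction in the
space of `x` are parametrized by a hypersurface `G(y) + c v ^ d = 0`, to which the induction hypothesis
is applied over the field of definition of `z` and of the direction. Rational equivalence on the generic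
fibre gives rational equivalence up to vertical terms, with a smaller field of definition. What remains
are joins of a variety and a linear subspace; these are cones over cycles on a hypersurface
`f_0 + … + f_(s-1) = 0`.
-/

set_option autoImplicit false

namespace Pool.Agent.Results.MP_13bc1c_ag.SumsInDisjointVariables

open MvPolynomial Pool.Agent.Z15.Chow

/-- `f_0, …, f_s` are forms of degree `d` in disjoint sets of variables, each of which has at least `d`
elements, and the number of variables is larger than `(s + 1) d`. Here `b i` is the index of the set
which contains the variable `i`. -/
structure DisjointForms {k : Type} [Field k] {ι : Type} (d s : ℕ) (b : ι → Fin (s + 1))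
    (f : Fin (s + 1) → MvPolynomial ι k) : Prop where
  hom : ∀ j, (f j).IsHomogeneous d
  vars : ∀ j, ∀ i ∈ (f j).vars, b i = j
  card : ∀ j, d ≤ Nat.card {i // b i = j}
  lt : (s + 1) * d < Nat.card ι

/-- `Λ 0, …, Λ s` is a basis of a linear subspace which is contained in the hypersurface `F = 0`. -/
def SpanIn {k : Type} [Field k] {ι : Type} (s : ℕ) (Λ : ℕ → ι → k) (F : MvPolynomial ι k) : Prop :=
  (LinearIndependent k fun j : Fin (s + 1) => Λ j) ∧
    ∀ a : Fin (s + 1) → k, eval (fun i => ∑ j, a j * Λ j i) F = 0

/-- Let `F = f_0 + … + f_s` be a sum of forms of degree `d ≥ 2` over an algebraically closed field `k` of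
characteristic `0` in disjoint sets of variables, each of at least `d` variables, such that the number
of variables is larger than `(s + 1) d`. Then there are linearly independent vectors `Λ 0, …, Λ s` which
span a linear subspace of the hypersurface `F = 0`, such that for every field `K ⊇ k` and all `l ≤ s`,
every cycle of dimension `l` on the hypersurface over `K` is, in the Chow group with rational
coefficients, a multiple of the linear subspace spanned by `Λ 0, …, Λ l`. -/
theorem result (k : Type) [Field k] [IsAlgClosed k] [CharZero k] {ι : Type} [Fintype ι] (d s : ℕ)
    (hd : 2 ≤ d) (b : ι → Fin (s + 1)) (f : Fin (s + 1) → MvPolynomial ι k)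
    (hf : DisjointForms d s b f) :
    ∃ Λ : ℕ → ι → k, SpanIn s Λ (∑ j, f j) ∧ ∀ (K : Type) [Field K] [Algebra k K] (l : ℕ), l ≤ s →
      GeneratedBy K l (map (algebraMap k K) (∑ j, f j))
        (linear K (fun i j => algebraMap k K (Λ i j)) l) := by
  have hlt := hf.lt
  rw [Nat.card_eq_fintype_card] at hlt
  obtain ⟨Λ, h1, h2, h3⟩ := Pool.Agent.Z15.J.main k d s hd b f hf.hom hf.vars hf.card hlt
  exact ⟨Λ, ⟨h1, h2⟩, fun K _ _ l hl => of_RR h3 K l hl⟩

end Pool.Agent.Results.MP_13bc1c_ag.SumsInDisjointVariables
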